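import Pool.Agent.helper62.QU.CA1

/-!
# Row KLI of the project QU (MP_07c750_an): the key inequality
-/

set_option autoImplicit false

open scoped MatrixGroups ContDiff Topology UpperHalfPlane
open UpperHalfPlane MeasureTheory Filter Set

namespace Pool.Agent.QU

/-! ### continuity and supports -/

theorem KLI_lap_cont {u : ℍ → ℝ} (hu : CD 2 u) : Continuous (lap u) := by
  have h1 : ContDiffOn ℝ 1 (fderiv ℝ (onC u)) CA1_U := by
    refine ContDiffOn.fderiv_of_isOpen (n := 2) hu CA1_open ?_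
    norm_num
  have h2 : ContDiffOn ℝ 0 (fderiv ℝ (fderiv ℝ (onC u))) CA1_U := by
    refine ContDiffOn.fderiv_of_isOpen (n := 1) h1 CA1_open ?_
    norm_num
  have h3 : ContinuousOn (fderiv ℝ (fderiv ℝ (onC u))) CA1_U := h2.continuousOn
  have h4 : Continuous fun z : ℍ => fderiv ℝ (fderiv ℝ (onC u)) (z : ℂ) :=
    h3.comp_continuous UpperHalfPlane.continuous_coe (fun z => CA1_mem z)
  have h5 : ∀ v v' : ℂ, Continuous fun z : ℍ => fderiv ℝ (fderiv ℝ (onC u)) (z : ℂ) v v' := by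
    intro v v'
    exact (h4.clm_apply continuous_const).clm_apply continuous_const
  unfold lap
  exact ((UpperHalfPlane.continuous_im.pow 2).neg).smul ((h5 1 1).add (h5 Complex.I Complex.I))

theorem KLI_lap_supp {u : ℍ → ℝ} (hs : HasCompactSupport u) : HasCompactSupport (lap u) := by
  refine HasCompactSupport.mono' hs ?_
  intro z hz
  by_contra hz'
  apply hz
  have h1 : u =ᶠ[𝓝 z] 0 := notMem_tsupport_iff_eventuallyEq.1 hz'
  have h2 : onC u =ᶠ[𝓝 (z : ℂ)] 0 := by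
    have h3 : Tendsto ofComplex (𝓝 (z : ℂ)) (𝓝 z) := by
      have h4 : ContinuousAt ofComplex (z : ℂ) := CA1_ofc (CA1_mem z)
      have h5 : ofComplex (z : ℂ) = z := ofComplex_apply z
      unfold ContinuousAt at h4
      rwa [h5] at h4
    have := h3.eventually h1
    filter_upwards [this] with w hw
    exact hw
  have h6 : fderiv ℝ (fderiv ℝ (onC u)) (z : ℂ) = 0 := by
    rw [h2.fderiv.fderiv_eq]
    simp
  show lap u z = 0
  unfold lap
  rw [h6]
  simp

theorem KLI_dY_cont {u : ℍ → ℝ} (hu : CD 2 u) : Continuous (dX u) ∧ Continuous (dY u) := by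
  obtain ⟨h0, hm, -, -, h5, -⟩ := CA1 ℝ
  have h1 := h5 u 1 (by exact_mod_cast hu)
  exact ⟨(h0 _).1 (hm _ 0 _ (by norm_num) h1.1), (h0 _).1 (hm _ 0 _ (by norm_num) h1.2)⟩

theorem KLI_dY_supp {u : ℍ → ℝ} (hs : HasCompactSupport u) :
    HasCompactSupport (dX u) ∧ HasCompactSupport (dY u) := by
  obtain ⟨-, -, -, -, -, -, -, -, -, h10⟩ := CA1 ℝ
  exact ⟨hs.of_isClosed_subset (isClosed_tsupport _) (h10 u).1,
    hs.of_isClosed_subset (isClosed_tsupport _) (h10 u).2⟩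

/-! ### Cauchy - Schwarz -/

theorem KLI_int {f : ℍ → ℝ} (hf : Continuous f) (hs : HasCompactSupport f) : Integrable f :=
  hf.integrable_of_hasCompactSupport hs

theorem KLI_CS {f g : ℍ → ℝ} (hf : Continuous f) (hg : Continuous g) (sf : HasCompactSupport f)
    (sg : HasCompactSupport g) :
    (∫ z, f z * g z) ^ 2 ≤ (∫ z, f z ^ 2) * ∫ z, g z ^ 2 := by
  have i1 : Integrable fun z => f z * g z := KLI_int (hf.mul hg) sf.mul_right
  have i2 : Integrable fun z => f z ^ 2 := by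
    refine KLI_int (hf.pow 2) ?_
    have : (fun z => f z ^ 2) = fun z => f z * f z := by
      funext z
      ring
    rw [this]
    exact sf.mul_right
  have i3 : Integrable fun z => g z ^ 2 := by
    refine KLI_int (hg.pow 2) ?_
    have : (fun z => g z ^ 2) = fun z => g z * g z := by
      funext z
      ring
    rw [this]
    exact sg.mul_right
  have key : ∀ t : ℝ, 0 ≤ (∫ z, g z ^ 2) * (t * t) + (2 * ∫ z, f z * g z) * t + ∫ z, f z ^ 2 := by
    intro t
    have h1 : ∫ z, (g z ^ 2 * (t * t) + (2 * (f z * g z)) * t + f z ^ 2) =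
        (∫ z, g z ^ 2) * (t * t) + (2 * ∫ z, f z * g z) * t + ∫ z, f z ^ 2 := by
      rw [integral_add, integral_add, integral_mul_const, integral_mul_const, integral_const_mul]
      · exact i3.mul_const _
      · exact (i1.const_mul 2).mul_const t
      · exact (i3.mul_const _).add ((i1.const_mul 2).mul_const t)
      · exact i2
    rw [← h1]
    refine integral_nonneg fun z => ?_
    show 0 ≤ g z ^ 2 * (t * t) + (2 * (f z * g z)) * t + f z ^ 2
    nlinarith [sq_nonneg (g z * t + f z)]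
  have h2 := discrim_le_zero key
  unfold discrim at h2
  nlinarith

theorem KLI_sq_supp {f : ℍ → ℝ} (hs : HasCompactSupport f) : HasCompactSupport fun z => f z ^ 2 := by
  have : (fun z => f z ^ 2) = fun z => f z * f z := by
    funext z
    ring
  rw [this]
  exact hs.mul_right

theorem KLI_dD_cont {u : ℍ → ℝ} (hu : CD 2 u) : Continuous (dD u) := by
  have h1 := (KLI_dY_cont hu).2
  have h2 : Continuous u := by
    obtain ⟨h0, hm, -⟩ := CA1 ℝ
    exact (h0 _).1 (hm _ 0 _ (by norm_num) hu)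
  unfold dD
  exact h1.sub (h2.div_const 2)

theorem KLI_u_cont {u : ℍ → ℝ} (hu : CD 2 u) : Continuous u := by
  obtain ⟨h0, hm, -⟩ := CA1 ℝ
  exact (h0 _).1 (hm _ 0 _ (by norm_num) hu)

theorem KLI_dD_supp {u : ℍ → ℝ} (hs : HasCompactSupport u) : HasCompactSupport (dD u) := by
  have h1 := (KLI_dY_supp hs).2
  have h2 : HasCompactSupport fun z => u z / 2 := by
    have : (fun z => u z / 2) = fun z => u z * (1 / 2) := by
      funext z
      ring
    rw [this]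
    exact hs.mul_right
  have : dD u = dY u - fun z => u z / 2 := by
    funext z
    rfl
  rw [this]
  exact h1.sub h2

theorem KLI_f_cont {u : ℍ → ℝ} (μ : ℝ) (hu : CD 2 u) : Continuous fun z => lap u z - μ * u z :=
  (KLI_lap_cont hu).sub (continuous_const.mul (KLI_u_cont hu))

theorem KLI_f_supp {u : ℍ → ℝ} (μ : ℝ) (hs : HasCompactSupport u) :
    HasCompactSupport fun z => lap u z - μ * u z :=
  (KLI_lap_supp hs).sub (hs.mul_left)

/-- the inequalities for one function -/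
theorem KLI_static (h6 : IDN_stmt) (u : ℍ → ℝ) (μ : ℝ) (hu : CD 2 u) (hs : HasCompactSupport u) :
    (∫ z : ℍ, dX u z ^ 2) ^ 2 ≤ (∫ z : ℍ, (lap u z - μ * u z) ^ 2) * ∫ z : ℍ, dD u z ^ 2 ∧
    ∃ c : ℝ, (∫ z : ℍ, dD u z ^ 2) + ∫ z : ℍ, dX u z ^ 2 = c + (μ - 1 / 4) * ∫ z : ℍ, u z ^ 2 ∧
      c ^ 2 ≤ (∫ z : ℍ, u z ^ 2) * ∫ z : ℍ, (lap u z - μ * u z) ^ 2 := by
  obtain ⟨e1, e2⟩ := h6 u μ hu hs
  have cf := KLI_f_cont μ hu
  have sf := KLI_f_supp μ hs
  have cu := KLI_u_cont hu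
  have cD := KLI_dD_cont hu
  have sD := KLI_dD_supp hs
  constructor
  · rw [e1]
    have := KLI_CS cf cD sf sD
    nlinarith
  · refine ⟨∫ z : ℍ, u z * (lap u z - μ * u z), ?_, KLI_CS cu cf hs sf⟩
    rw [e2]
    have h1 : ∫ z : ℍ, u z * lap u z = (∫ z : ℍ, u z * (lap u z - μ * u z)) + μ * ∫ z : ℍ, u z ^ 2 := by
      rw [← integral_const_mul, ← integral_add]
      · refine integral_congr_ae (Eventually.of_forall fun z => ?_)
        show u z * lap u z = u z * (lap u z - μ * u z) + μ * u z ^ 2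
        ring
      · exact KLI_int (cu.mul cf) hs.mul_right
      · exact (KLI_int (cu.pow 2) (KLI_sq_supp hs)).const_mul μ
    rw [h1]
    ring

/-! ### Ultralimits -/

theorem KLI_ulim (x : ℕ → ℝ) (B : ℝ) (h : ∀ j, |x j| ≤ B) :
    ∃ l, Tendsto x (hyperfilter ℕ : Filter ℕ) (𝓝 l) := by
  have h1 : ((hyperfilter ℕ).map x : Filter ℝ) ≤ 𝓟 (Icc (-B) B) := by
    rw [le_principal_iff]
    refine mem_map.2 (Filter.Eventually.of_forall fun j => ?_)
    exact abs_le.1 (h j)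
  obtain ⟨l, -, hl⟩ := isCompact_Icc.ultrafilter_le_nhds ((hyperfilter ℕ).map x) h1
  exact ⟨l, hl⟩

/-- the limit functional -/
noncomputable def KLI_L (w : ℕ → ℍ → ℝ) (a : ℕ → ℝ) (g : ℍ → ℝ) : ℝ :=
  limUnder (hyperfilter ℕ : Filter ℕ) fun j => (∫ z : ℍ, g z * w j z) / a j

theorem KLI_abs {g w : ℍ → ℝ} (m : ℝ) (cg : Continuous g) (hg : ∀ z, |g z| ≤ m) (cw : Continuous w)
    (sw : HasCompactSupport w) : |∫ z : ℍ, g z * w z| ≤ m * ∫ z : ℍ, |w z| := by
  have i1 : Integrable fun z => m * |w z| := (KLI_int cw sw).abs.const_mul m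
  rw [← integral_const_mul]
  refine (abs_integral_le_integral_abs).trans ?_
  refine integral_mono (KLI_int (cg.mul cw) sw.mul_left).abs i1 fun z => ?_
  show |g z * w z| ≤ m * |w z|
  rw [abs_mul]
  exact mul_le_mul_of_nonneg_right (hg z) (abs_nonneg _)

theorem KLI_Ltend (w : ℕ → ℍ → ℝ) (a : ℕ → ℝ) (B : ℝ) (cw : ∀ j, Continuous (w j))
    (sw : ∀ j, HasCompactSupport (w j)) (ha : ∀ j, 0 < a j)
    (hB : ∀ j, (∫ z : ℍ, |w j z|) / a j ≤ B) (g : ℍ → ℝ) (m : ℝ) (cg : Continuous g)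
    (hg : ∀ z, |g z| ≤ m) :
    Tendsto (fun j => (∫ z : ℍ, g z * w j z) / a j) (hyperfilter ℕ : Filter ℕ)
      (𝓝 (KLI_L w a g)) ∧ |KLI_L w a g| ≤ B * m := by
  have hm : 0 ≤ m := (abs_nonneg _).trans (hg UpperHalfPlane.I)
  have h1 : ∀ j, |(∫ z : ℍ, g z * w j z) / a j| ≤ B * m := by
    intro j
    rw [abs_div, abs_of_pos (ha j), div_le_iff₀ (ha j)]
    have h2 := KLI_abs m cg hg (cw j) (sw j)
    have h3 := hB j
    rw [div_le_iff₀ (ha j)] at h3
    calc |∫ z : ℍ, g z * w j z| ≤ m * ∫ z : ℍ, |w j z| := h2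
      _ ≤ m * (B * a j) := mul_le_mul_of_nonneg_left h3 hm
      _ = B * m * a j := by ring
  have h2 := tendsto_nhds_limUnder (KLI_ulim _ _ h1)
  refine ⟨h2, ?_⟩
  exact le_of_tendsto h2.abs (Filter.Eventually.of_forall h1)

theorem KLI_BFun (h9 : BDD_stmt) (Γ : Subgroup SL(2, ℝ)) (F : Set ℍ) (hΓ : SurfaceGroup Γ)
    (hF : NiceDom Γ F) (w : ℕ → ℍ → ℝ) (a : ℕ → ℝ) (B : ℝ) (cw : ∀ j, Continuous (w j))
    (sw : ∀ j, HasCompactSupport (w j)) (ha : ∀ j, 0 < a j)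
    (hB : ∀ j, (∫ z : ℍ, |w j z|) / a j ≤ B) : BFun Γ (KLI_L w a) := by
  refine ⟨?_, ?_, ⟨B, ?_⟩⟩
  · intro f g hf hg
    obtain ⟨m, hm⟩ := (h9 Γ F f hΓ hF hf).1
    obtain ⟨m', hm'⟩ := (h9 Γ F g hΓ hF hg).1
    have t1 := (KLI_Ltend w a B cw sw ha hB f m hf.1 hm).1
    have t2 := (KLI_Ltend w a B cw sw ha hB g m' hg.1 hm').1
    have t3 := (KLI_Ltend w a B cw sw ha hB (fun z => f z + g z) (m + m') (hf.1.add hg.1)
      (fun z => (abs_add_le _ _).trans (add_le_add (hm z) (hm' z)))).1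
    refine tendsto_nhds_unique t3 ?_
    have t4 := t1.add t2
    refine t4.congr fun j => ?_
    rw [← add_div, ← integral_add]
    · congr 1
      refine integral_congr_ae (Eventually.of_forall fun z => ?_)
      show f z * w j z + g z * w j z = (f z + g z) * w j z
      ring
    · exact KLI_int (hf.1.mul (cw j)) (sw j).mul_left
    · exact KLI_int (hg.1.mul (cw j)) (sw j).mul_left
  · intro c f hf
    obtain ⟨m, hm⟩ := (h9 Γ F f hΓ hF hf).1
    have t1 := (KLI_Ltend w a B cw sw ha hB f m hf.1 hm).1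
    have t3 := (KLI_Ltend w a B cw sw ha hB (fun z => c * f z) (|c| * m)
      (continuous_const.mul hf.1) (fun z => by
        rw [abs_mul]
        exact mul_le_mul_of_nonneg_left (hm z) (abs_nonneg _))).1
    refine tendsto_nhds_unique t3 ?_
    have t4 := t1.const_mul c
    refine t4.congr fun j => ?_
    rw [← mul_div_assoc, ← integral_const_mul]
    congr 1
    refine integral_congr_ae (Eventually.of_forall fun z => ?_)
    show c * (f z * w j z) = c * f z * w j z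
    ring
  · intro f m hf hm
    exact (KLI_Ltend w a B cw sw ha hB f m hf.1 hm).2

/-- small errors have limit zero -/
theorem KLI_zero (x e : ℕ → ℝ) (l : ℝ) (hx : Tendsto x (hyperfilter ℕ : Filter ℕ) (𝓝 l))
    (he : Tendsto e (hyperfilter ℕ : Filter ℕ) (𝓝 0)) (h : ∀ j, |x j| ≤ e j) : l = 0 := by
  have h1 : Tendsto x (hyperfilter ℕ : Filter ℕ) (𝓝 0) := squeeze_zero_norm h he
  exact tendsto_nhds_unique hx h1

theorem KLI_num (a F X D C R B₁ K : ℝ) (ha : 0 < a) (hF : 0 ≤ F) (hX : 0 ≤ X) (hD : 0 ≤ D)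
    (hC : 0 ≤ C) (hd : D / a ≤ B₁) (hR : |R| ≤ K) :
    1000 * C * (1 + |R|) * ((Real.sqrt F + Real.sqrt X) *
      (Real.sqrt a + Real.sqrt D + Real.sqrt X + Real.sqrt F)) ≤
    (1000 * C * (1 + K) * ((Real.sqrt (F / a) + Real.sqrt (X / a)) *
      (1 + Real.sqrt B₁ + Real.sqrt (X / a) + Real.sqrt (F / a)))) * a := by
  have hs : ∀ y : ℝ, 0 ≤ y → Real.sqrt y = Real.sqrt (y / a) * Real.sqrt a := by
    intro y hy
    rw [← Real.sqrt_mul (div_nonneg hy ha.le), div_mul_cancel₀ _ ha.ne']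
  have haa : Real.sqrt a * Real.sqrt a = a := Real.mul_self_sqrt ha.le
  have hDB : Real.sqrt (D / a) ≤ Real.sqrt B₁ := Real.sqrt_le_sqrt hd
  have hp := Real.sqrt_nonneg (F / a)
  have hq := Real.sqrt_nonneg (X / a)
  have hdd := Real.sqrt_nonneg (D / a)
  have hR0 := abs_nonneg R
  have e1 : (Real.sqrt F + Real.sqrt X) * (Real.sqrt a + Real.sqrt D + Real.sqrt X + Real.sqrt F) =
      (Real.sqrt (F / a) + Real.sqrt (X / a)) *
        (1 + Real.sqrt (D / a) + Real.sqrt (X / a) + Real.sqrt (F / a)) * a := by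
    rw [hs F hF, hs X hX, hs D hD]
    calc (Real.sqrt (F / a) * Real.sqrt a + Real.sqrt (X / a) * Real.sqrt a) *
        (Real.sqrt a + Real.sqrt (D / a) * Real.sqrt a + Real.sqrt (X / a) * Real.sqrt a +
          Real.sqrt (F / a) * Real.sqrt a) =
        (Real.sqrt (F / a) + Real.sqrt (X / a)) *
        (1 + Real.sqrt (D / a) + Real.sqrt (X / a) + Real.sqrt (F / a)) *
          (Real.sqrt a * Real.sqrt a) := by ring
      _ = _ := by rw [haa]
  rw [e1]
  have e2 : (Real.sqrt (F / a) + Real.sqrt (X / a)) *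
        (1 + Real.sqrt (D / a) + Real.sqrt (X / a) + Real.sqrt (F / a)) ≤
      (Real.sqrt (F / a) + Real.sqrt (X / a)) *
      (1 + Real.sqrt B₁ + Real.sqrt (X / a) + Real.sqrt (F / a)) :=
    mul_le_mul_of_nonneg_left (by linarith) (by positivity)
  have e3 : 1000 * C * (1 + |R|) ≤ 1000 * C * (1 + K) :=
    mul_le_mul_of_nonneg_left (by linarith) (by positivity)
  rw [← mul_assoc]
  refine mul_le_mul_of_nonneg_right ?_ ha.le
  exact mul_le_mul e3 e2 (by positivity) (mul_nonneg (by positivity) (by linarith))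

theorem KLI_core (h2 : LAK_stmt) (h3 : CVS_stmt) (h4 : CVB_stmt) (h5 : FRB_stmt) (h6 : IDN_stmt)
    (h7 : REL_stmt) (h8 : DOB_stmt) (h9 : BDD_stmt) (h10 : ABS_stmt) (h11 : MEA_stmt)
    (Γ : Subgroup SL(2, ℝ)) (Fd : Set ℍ) (h : ℍ → ℝ) (hΓ : SurfaceGroup Γ) (hF : NiceDom Γ Fd)
    (hh : Inv Γ h) (hmean : (∫ z in Fd, h z) = 0) (b δ m : ℝ) (hδ : 0 < δ)
    (hm : ∀ z, |h z| ≤ m) (μ : ℕ → ℝ) (u : ℕ → ℍ → ℝ) (hμ : ∀ j, 0 ≤ μ j ∧ μ j ≤ b)
    (hu : ∀ j, CD 2 (u j)) (hs : ∀ j, HasCompactSupport (u j))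
    (hbad : ∀ j : ℕ, δ * (∫ z : ℍ, u j z ^ 2) +
      ((j : ℝ) + 1) * ∫ z : ℍ, (lap (u j) z - μ j * u j z) ^ 2 < ∫ z : ℍ, h z * u j z ^ 2) :
    False := by
  have hm0 : 0 ≤ m := (abs_nonneg _).trans (hm UpperHalfPlane.I)
  obtain ⟨a, ha⟩ : ∃ a : ℕ → ℝ, ∀ j, a j = ∫ z : ℍ, u j z ^ 2 := ⟨_, fun _ => rfl⟩
  obtain ⟨F, hFd⟩ : ∃ F : ℕ → ℝ, ∀ j, F j = ∫ z : ℍ, (lap (u j) z - μ j * u j z) ^ 2 :=
    ⟨_, fun _ => rfl⟩
  obtain ⟨X, hX⟩ : ∃ X : ℕ → ℝ, ∀ j, X j = ∫ z : ℍ, dX (u j) z ^ 2 := ⟨_, fun _ => rfl⟩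
  obtain ⟨D, hD⟩ : ∃ D : ℕ → ℝ, ∀ j, D j = ∫ z : ℍ, dD (u j) z ^ 2 := ⟨_, fun _ => rfl⟩
  have a0 : ∀ j, 0 ≤ a j := fun j => by
    rw [ha]
    exact integral_nonneg fun z => sq_nonneg _
  have F0 : ∀ j, 0 ≤ F j := fun j => by
    rw [hFd]
    exact integral_nonneg fun z => sq_nonneg _
  have X0 : ∀ j, 0 ≤ X j := fun j => by
    rw [hX]
    exact integral_nonneg fun z => sq_nonneg _
  have D0 : ∀ j, 0 ≤ D j := fun j => by
    rw [hD]
    exact integral_nonneg fun z => sq_nonneg _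
  have cu : ∀ j, Continuous (u j) := fun j => KLI_u_cont (hu j)
  have cD : ∀ j, Continuous (dD (u j)) := fun j => KLI_dD_cont (hu j)
  have sD : ∀ j, HasCompactSupport (dD (u j)) := fun j => KLI_dD_supp (hs j)
  have hbad' : ∀ j : ℕ, δ * a j + ((j : ℝ) + 1) * F j < ∫ z : ℍ, h z * u j z ^ 2 := fun j => by
    rw [ha, hFd]
    exact hbad j
  have hup : ∀ j, (∫ z : ℍ, h z * u j z ^ 2) ≤ m * a j := by
    intro j
    have h1 := KLI_abs (w := fun z => u j z ^ 2) m hh.1 hm ((cu j).pow 2) (KLI_sq_supp (hs j))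
    have h2' : ∫ z : ℍ, |u j z ^ 2| = a j := by
      rw [ha]
      refine integral_congr_ae (Eventually.of_forall fun z => ?_)
      show |u j z ^ 2| = u j z ^ 2
      exact abs_of_nonneg (sq_nonneg _)
    rw [h2'] at h1
    exact (le_abs_self _).trans h1
  have apos : ∀ j, 0 < a j := by
    intro j
    rcases (a0 j).lt_or_eq with h1 | h1
    · exact h1
    · exfalso
      have h2' := hbad' j
      have h3' := hup j
      rw [← h1] at h2' h3'
      have h4' : 0 ≤ ((j : ℝ) + 1) * F j := mul_nonneg (by positivity) (F0 j)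
      linarith
  -- normalised quantities
  have hp : ∀ j : ℕ, F j / a j ≤ m * (1 / ((j : ℝ) + 1)) := by
    intro j
    have hj : (0 : ℝ) < (j : ℝ) + 1 := by positivity
    rw [div_le_iff₀ (apos j), mul_one_div, div_mul_eq_mul_div, le_div_iff₀ hj]
    have h2' := hbad' j
    have h3' := hup j
    have h4' : 0 < δ * a j := mul_pos hδ (apos j)
    linarith
  have hp0 : ∀ j, 0 ≤ F j / a j := fun j => div_nonneg (F0 j) (apos j).le
  have hpm : ∀ j : ℕ, F j / a j ≤ m := by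
    intro j
    refine (hp j).trans ?_
    have : 1 / ((j : ℝ) + 1) ≤ 1 := by
      rw [div_le_one (by positivity)]
      have : (0 : ℝ) ≤ j := by positivity
      linarith
    nlinarith
  have hst : ∀ j, ∃ c : ℝ, D j / a j + X j / a j = c + (μ j - 1 / 4) ∧ c ^ 2 ≤ F j / a j := by
    intro j
    obtain ⟨-, c, hc1, hc2⟩ := KLI_static h6 (u j) (μ j) (hu j) (hs j)
    rw [← ha, ← hX, ← hD] at hc1
    rw [← ha, ← hFd] at hc2
    have haj := (apos j).ne'
    refine ⟨c / a j, ?_, ?_⟩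
    · rw [← add_div, hc1]
      field_simp
    · rw [div_pow, div_le_div_iff₀ (by have := apos j; positivity) (apos j)]
      nlinarith [apos j]
  choose c hc1 hc2 using hst
  have hq2 : ∀ j, (X j / a j) ^ 2 ≤ (F j / a j) * (D j / a j) := by
    intro j
    have h1 := (KLI_static h6 (u j) (μ j) (hu j) (hs j)).1
    rw [← hX, ← hD, ← hFd] at h1
    have haj := apos j
    rw [div_pow, div_mul_div_comm, ← sq]
    exact div_le_div_of_nonneg_right h1 (by positivity)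
  have hcs : ∀ j, |c j| ≤ Real.sqrt (F j / a j) := fun j => Real.abs_le_sqrt (hc2 j)
  obtain ⟨B₁, hB₁⟩ : ∃ B₁ : ℝ, B₁ = Real.sqrt m + |b| := ⟨_, rfl⟩
  have hB0 : 0 ≤ B₁ := by
    rw [hB₁]
    positivity
  have hd0 : ∀ j, 0 ≤ D j / a j := fun j => div_nonneg (D0 j) (apos j).le
  have hq0 : ∀ j, 0 ≤ X j / a j := fun j => div_nonneg (X0 j) (apos j).le
  have hd : ∀ j, D j / a j ≤ B₁ := by
    intro j
    have h1 := hc1 j
    have h2' := (le_abs_self _).trans (hcs j)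
    have h3' : Real.sqrt (F j / a j) ≤ Real.sqrt m := Real.sqrt_le_sqrt (hpm j)
    have h4' := (hμ j).2
    have h5' := le_abs_self b
    have h6' := hq0 j
    rw [hB₁]
    linarith
  have hqs : ∀ j, X j / a j ≤ Real.sqrt (F j / a j * B₁) := by
    intro j
    refine Real.le_sqrt_of_sq_le ((hq2 j).trans ?_)
    exact mul_le_mul_of_nonneg_left (hd j) (hp0 j)
  -- limits
  have hU : (hyperfilter ℕ : Filter ℕ) ≤ atTop := Nat.hyperfilter_le_atTop
  have lp : Tendsto (fun j => F j / a j) atTop (𝓝 0) := by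
    have h1 : Tendsto (fun j : ℕ => m * (1 / ((j : ℝ) + 1))) atTop (𝓝 0) := by
      have := (tendsto_one_div_add_atTop_nhds_zero_nat (𝕜 := ℝ)).const_mul m
      rwa [mul_zero] at this
    exact squeeze_zero hp0 hp h1
  have hsq : ∀ x : ℕ → ℝ, Tendsto x atTop (𝓝 0) → Tendsto (fun j => Real.sqrt (x j)) atTop (𝓝 0) := by
    intro x hx
    have := (Real.continuous_sqrt.tendsto 0).comp hx
    rw [Real.sqrt_zero] at this
    exact this
  have lsp := hsq _ lp
  have lpB : Tendsto (fun j => F j / a j * B₁) atTop (𝓝 0) := by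
    have := lp.mul_const B₁
    rwa [zero_mul] at this
  have lq : Tendsto (fun j => X j / a j) atTop (𝓝 0) := squeeze_zero hq0 hqs (hsq _ lpB)
  have lsq := hsq _ lq
  have lc : Tendsto c atTop (𝓝 0) := squeeze_zero_norm hcs lsp
  -- the limit of `μ`
  obtain ⟨l, hl⟩ := KLI_ulim μ (|b|) (fun j => by
    rw [abs_of_nonneg (hμ j).1]
    exact (hμ j).2.trans (le_abs_self b))
  obtain ⟨R, hR⟩ : ∃ R : ℝ, R = l - 1 / 4 := ⟨_, rfl⟩
  have lR : Tendsto (fun j => μ j - 1 / 4) (hyperfilter ℕ : Filter ℕ) (𝓝 R) := by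
    rw [hR]
    exact hl.sub_const _
  have ld : Tendsto (fun j => D j / a j) (hyperfilter ℕ : Filter ℕ) (𝓝 R) := by
    have h1 := ((lc.mono_left hU).add lR).sub (lq.mono_left hU)
    rw [zero_add, sub_zero] at h1
    refine h1.congr fun j => ?_
    have := hc1 j
    linarith
  have hR0 : 0 ≤ R := ge_of_tendsto ld (Filter.Eventually.of_forall hd0)
  have hRb : ∀ j, |μ j - 1 / 4| ≤ |b| + 1 := by
    intro j
    have h1 := hμ j
    have h2' := le_abs_self b
    rw [abs_le]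
    constructor <;> linarith
  -- the weights
  obtain ⟨W0, hW0⟩ : ∃ W : ℕ → ℍ → ℝ, W = fun j z => u j z ^ 2 := ⟨_, rfl⟩
  obtain ⟨W1, hW1⟩ : ∃ W : ℕ → ℍ → ℝ, W = fun j z => u j z * dD (u j) z := ⟨_, rfl⟩
  obtain ⟨W2, hW2⟩ : ∃ W : ℕ → ℍ → ℝ, W = fun j z =>
    dD (u j) z ^ 2 - (μ j - 1 / 4) * u j z ^ 2 := ⟨_, rfl⟩
  have cW0 : ∀ j, Continuous (W0 j) := fun j => by
    rw [hW0]
    exact (cu j).pow 2
  have cW1 : ∀ j, Continuous (W1 j) := fun j => by
    rw [hW1]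
    exact (cu j).mul (cD j)
  have cW2 : ∀ j, Continuous (W2 j) := fun j => by
    rw [hW2]
    exact ((cD j).pow 2).sub (continuous_const.mul ((cu j).pow 2))
  have sW0 : ∀ j, HasCompactSupport (W0 j) := fun j => by
    rw [hW0]
    exact KLI_sq_supp (hs j)
  have sW1 : ∀ j, HasCompactSupport (W1 j) := fun j => by
    rw [hW1]
    exact (hs j).mul_right
  have sW2 : ∀ j, HasCompactSupport (W2 j) := fun j => by
    rw [hW2]
    exact (KLI_sq_supp (sD j)).sub ((KLI_sq_supp (hs j)).mul_left)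
  have B0 : ∀ j, (∫ z : ℍ, |W0 j z|) / a j ≤ 1 := by
    intro j
    have : ∫ z : ℍ, |W0 j z| = a j := by
      rw [ha, hW0]
      refine integral_congr_ae (Eventually.of_forall fun z => ?_)
      show |u j z ^ 2| = u j z ^ 2
      exact abs_of_nonneg (sq_nonneg _)
    rw [this, div_self (apos j).ne']
  have Bd1 : ∀ j, (∫ z : ℍ, |W1 j z|) / a j ≤ Real.sqrt (D j / a j) := by
    intro j
    have h1 := KLI_CS (cu j).abs (cD j).abs ((hs j).comp_left (g := fun x : ℝ => |x|) abs_zero)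
      ((sD j).comp_left (g := fun x : ℝ => |x|) abs_zero)
    have e1 : ∫ z : ℍ, |W1 j z| = ∫ z : ℍ, |u j z| * |dD (u j) z| := by
      rw [hW1]
      refine integral_congr_ae (Eventually.of_forall fun z => ?_)
      show |u j z * dD (u j) z| = |u j z| * |dD (u j) z|
      exact abs_mul _ _
    have e2 : ∫ z : ℍ, |u j z| ^ 2 = a j := by
      rw [ha]
      refine integral_congr_ae (Eventually.of_forall fun z => ?_)
      show |u j z| ^ 2 = u j z ^ 2
      exact sq_abs _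
    have e3 : ∫ z : ℍ, |dD (u j) z| ^ 2 = D j := by
      rw [hD]
      refine integral_congr_ae (Eventually.of_forall fun z => ?_)
      show |dD (u j) z| ^ 2 = dD (u j) z ^ 2
      exact sq_abs _
    rw [← e1, e2, e3] at h1
    refine Real.le_sqrt_of_sq_le ?_
    have haj := apos j
    rw [div_pow, div_le_div_iff₀ (by positivity) haj]
    calc (∫ z : ℍ, |W1 j z|) ^ 2 * a j ≤ (a j * D j) * a j :=
          mul_le_mul_of_nonneg_right h1 haj.le
      _ = D j * a j ^ 2 := by ring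
  have B1 : ∀ j, (∫ z : ℍ, |W1 j z|) / a j ≤ Real.sqrt B₁ := fun j =>
    (Bd1 j).trans (Real.sqrt_le_sqrt (hd j))
  have Bd2 : ∀ j, (∫ z : ℍ, |W2 j z|) / a j ≤ D j / a j + |μ j - 1 / 4| := by
    intro j
    have haj := apos j
    have e1 : ∫ z : ℍ, |W2 j z| ≤ D j + |μ j - 1 / 4| * a j := by
      rw [hD, ha, ← integral_const_mul, ← integral_add]
      · refine integral_mono (KLI_int (cW2 j) (sW2 j)).abs ?_ fun z => ?_
        · exact (KLI_int ((cD j).pow 2) (KLI_sq_supp (sD j))).add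
            ((KLI_int ((cu j).pow 2) (KLI_sq_supp (hs j))).const_mul _)
        · rw [hW2]
          show |dD (u j) z ^ 2 - (μ j - 1 / 4) * u j z ^ 2| ≤
            dD (u j) z ^ 2 + |μ j - 1 / 4| * u j z ^ 2
          refine (abs_sub _ _).trans ?_
          rw [abs_mul, abs_of_nonneg (sq_nonneg (dD (u j) z)), abs_of_nonneg (sq_nonneg (u j z))]
      · exact KLI_int ((cD j).pow 2) (KLI_sq_supp (sD j))
      · exact (KLI_int ((cu j).pow 2) (KLI_sq_supp (hs j))).const_mul _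
    calc (∫ z : ℍ, |W2 j z|) / a j ≤ (D j + |μ j - 1 / 4| * a j) / a j :=
          div_le_div_of_nonneg_right e1 haj.le
      _ = D j / a j + |μ j - 1 / 4| := by
          rw [add_div, mul_div_cancel_right₀ _ haj.ne']
  have B2 : ∀ j, (∫ z : ℍ, |W2 j z|) / a j ≤ B₁ + (|b| + 1) := fun j =>
    (Bd2 j).trans (add_le_add (hd j) (hRb j))
  have bf0 := KLI_BFun h9 Γ Fd hΓ hF W0 a 1 cW0 sW0 apos B0
  have bf1 := KLI_BFun h9 Γ Fd hΓ hF W1 a _ cW1 sW1 apos B1
  have bf2 := KLI_BFun h9 Γ Fd hΓ hF W2 a _ cW2 sW2 apos B2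
  -- limits of the three functionals
  have t0 : ∀ g : ℍ → ℝ, Inv Γ g → Tendsto (fun j => (∫ z : ℍ, g z * W0 j z) / a j)
      (hyperfilter ℕ : Filter ℕ) (𝓝 (KLI_L W0 a g)) := by
    intro g hg
    obtain ⟨mg, hmg⟩ := (h9 Γ Fd g hΓ hF hg).1
    exact (KLI_Ltend W0 a 1 cW0 sW0 apos B0 g mg hg.1 hmg).1
  have t1 : ∀ g : ℍ → ℝ, Inv Γ g → Tendsto (fun j => (∫ z : ℍ, g z * W1 j z) / a j)
      (hyperfilter ℕ : Filter ℕ) (𝓝 (KLI_L W1 a g)) := by
    intro g hg
    obtain ⟨mg, hmg⟩ := (h9 Γ Fd g hΓ hF hg).1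
    exact (KLI_Ltend W1 a _ cW1 sW1 apos B1 g mg hg.1 hmg).1
  have t2 : ∀ g : ℍ → ℝ, Inv Γ g → Tendsto (fun j => (∫ z : ℍ, g z * W2 j z) / a j)
      (hyperfilter ℕ : Filter ℕ) (𝓝 (KLI_L W2 a g)) := by
    intro g hg
    obtain ⟨mg, hmg⟩ := (h9 Γ Fd g hΓ hF hg).1
    exact (KLI_Ltend W2 a _ cW2 sW2 apos B2 g mg hg.1 hmg).1
  -- the error
  have lerr : ∀ C : ℝ, Tendsto (fun j => 1000 * C * (1 + (|b| + 1)) *
      ((Real.sqrt (F j / a j) + Real.sqrt (X j / a j)) *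
        (1 + Real.sqrt B₁ + Real.sqrt (X j / a j) + Real.sqrt (F j / a j))))
      (hyperfilter ℕ : Filter ℕ) (𝓝 0) := by
    intro C
    have h1 := lsp.mono_left hU
    have h2' := lsq.mono_left hU
    have h3' := (h1.add h2').mul (((tendsto_const_nhds (x := 1 + Real.sqrt B₁)).add h2').add h1)
    have h4' := h3'.const_mul (1000 * C * (1 + (|b| + 1)))
    simp only [add_zero, zero_mul, mul_zero] at h4'
    exact h4'
  have rel : ∀ (g : ℍ → ℝ) (C : ℝ), FB g C → Inv Γ g → Inv Γ (lap g) →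
      KLI_L W0 a (lap g) + 2 * KLI_L W2 a g + 2 * KLI_L W1 a g = 0 ∧
      KLI_L W1 a (lap g) - (4 * R * KLI_L W1 a g - KLI_L W2 a g) = 0 ∧
      KLI_L W2 a (lap g) - (4 * R * KLI_L W1 a g + 4 * R * KLI_L W2 a g) = 0 := by
    intro g C hFB hg hlg
    have hC : 0 ≤ C := (abs_nonneg _).trans (hFB.2 UpperHalfPlane.I).1
    have hr : ∀ j, |(∫ z : ℍ, lap g z * W0 j z) + 2 * (∫ z : ℍ, g z * W2 j z) +
          2 * ∫ z : ℍ, g z * W1 j z| ≤ (1000 * C * (1 + (|b| + 1)) *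
          ((Real.sqrt (F j / a j) + Real.sqrt (X j / a j)) *
          (1 + Real.sqrt B₁ + Real.sqrt (X j / a j) + Real.sqrt (F j / a j)))) * a j ∧
        |(∫ z : ℍ, lap g z * W1 j z) - (4 * (μ j - 1 / 4) * (∫ z : ℍ, g z * W1 j z) -
          ∫ z : ℍ, g z * W2 j z)| ≤ (1000 * C * (1 + (|b| + 1)) *
          ((Real.sqrt (F j / a j) + Real.sqrt (X j / a j)) *
          (1 + Real.sqrt B₁ + Real.sqrt (X j / a j) + Real.sqrt (F j / a j)))) * a j ∧
        |(∫ z : ℍ, lap g z * W2 j z) - (4 * (μ j - 1 / 4) * (∫ z : ℍ, g z * W1 j z) +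
          4 * (μ j - 1 / 4) * ∫ z : ℍ, g z * W2 j z)| ≤ (1000 * C * (1 + (|b| + 1)) *
          ((Real.sqrt (F j / a j) + Real.sqrt (X j / a j)) *
          (1 + Real.sqrt B₁ + Real.sqrt (X j / a j) + Real.sqrt (F j / a j)))) * a j := by
      intro j
      have hnum := KLI_num (a j) (F j) (X j) (D j) C (μ j - 1 / 4) B₁ (|b| + 1) (apos j) (F0 j)
        (X0 j) (D0 j) hC (hd j) (hRb j)
      obtain ⟨r1, r2, r3⟩ := h7 g (u j) C (μ j) hFB (hu j) (hs j)
      rw [← ha, ← hFd, ← hX, ← hD] at r1 r2 r3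
      have e0 : ∫ z : ℍ, g z * W2 j z = (∫ z : ℍ, g z * dD (u j) z ^ 2) -
          (μ j - 1 / 4) * ∫ z : ℍ, g z * u j z ^ 2 := by
        rw [← integral_const_mul, ← integral_sub]
        · refine integral_congr_ae (Eventually.of_forall fun z => ?_)
          rw [hW2]
          show g z * (dD (u j) z ^ 2 - (μ j - 1 / 4) * u j z ^ 2) =
            g z * dD (u j) z ^ 2 - (μ j - 1 / 4) * (g z * u j z ^ 2)
          ring
        · exact KLI_int (hg.1.mul ((cD j).pow 2)) (KLI_sq_supp (sD j)).mul_left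
        · exact (KLI_int (hg.1.mul ((cu j).pow 2)) (KLI_sq_supp (hs j)).mul_left).const_mul _
      have e1 : ∫ z : ℍ, lap g z * W0 j z = ∫ z : ℍ, lap g z * u j z ^ 2 := by rw [hW0]
      have e2 : ∫ z : ℍ, g z * W1 j z = ∫ z : ℍ, g z * (u j z * dD (u j) z) := by rw [hW1]
      have e3 : ∫ z : ℍ, lap g z * W1 j z = ∫ z : ℍ, lap g z * (u j z * dD (u j) z) := by rw [hW1]
      have e4 : ∫ z : ℍ, g z * W2 j z =
          ∫ z : ℍ, g z * (dD (u j) z ^ 2 - (μ j - 1 / 4) * u j z ^ 2) := by rw [hW2]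
      have e5 : ∫ z : ℍ, lap g z * W2 j z =
          ∫ z : ℍ, lap g z * (dD (u j) z ^ 2 - (μ j - 1 / 4) * u j z ^ 2) := by rw [hW2]
      refine ⟨?_, ?_, ?_⟩
      · refine le_trans (le_of_eq ?_) (r1.trans hnum)
        rw [e1, e0, e2]
        congr 1
        ring
      · refine le_trans (le_of_eq ?_) (r2.trans hnum)
        rw [e3, e2, e4]
      · refine le_trans (le_of_eq ?_) (r3.trans hnum)
        rw [e5, e2, e4]
    refine ⟨?_, ?_, ?_⟩
    · refine KLI_zero _ _ _ (((t0 _ hlg).add ((t2 _ hg).const_mul 2)).add ((t1 _ hg).const_mul 2))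
        (lerr C) fun j => ?_
      have h1 := (hr j).1
      have haj := apos j
      have e : (∫ z : ℍ, lap g z * W0 j z) / a j + 2 * ((∫ z : ℍ, g z * W2 j z) / a j) +
          2 * ((∫ z : ℍ, g z * W1 j z) / a j) = ((∫ z : ℍ, lap g z * W0 j z) +
          2 * (∫ z : ℍ, g z * W2 j z) + 2 * ∫ z : ℍ, g z * W1 j z) / a j := by
        ring
      rw [e, abs_div, abs_of_pos haj, div_le_iff₀ haj]
      exact h1
    · refine KLI_zero _ _ _ ((t1 _ hlg).sub (((lR.const_mul 4).mul (t1 _ hg)).sub (t2 _ hg)))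
        (lerr C) fun j => ?_
      have h1 := (hr j).2.1
      have haj := apos j
      have e : (∫ z : ℍ, lap g z * W1 j z) / a j - (4 * (μ j - 1 / 4) *
          ((∫ z : ℍ, g z * W1 j z) / a j) - (∫ z : ℍ, g z * W2 j z) / a j) =
          ((∫ z : ℍ, lap g z * W1 j z) - (4 * (μ j - 1 / 4) * (∫ z : ℍ, g z * W1 j z) -
          ∫ z : ℍ, g z * W2 j z)) / a j := by
        ring
      rw [e, abs_div, abs_of_pos haj, div_le_iff₀ haj]
      exact h1
    · refine KLI_zero _ _ _ ((t2 _ hlg).sub (((lR.const_mul 4).mul (t1 _ hg)).add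
        ((lR.const_mul 4).mul (t2 _ hg)))) (lerr C) fun j => ?_
      have h1 := (hr j).2.2
      have haj := apos j
      have e : (∫ z : ℍ, lap g z * W2 j z) / a j - (4 * (μ j - 1 / 4) *
          ((∫ z : ℍ, g z * W1 j z) / a j) + 4 * (μ j - 1 / 4) * ((∫ z : ℍ, g z * W2 j z) / a j)) =
          ((∫ z : ℍ, lap g z * W2 j z) - (4 * (μ j - 1 / 4) * (∫ z : ℍ, g z * W1 j z) +
          4 * (μ j - 1 / 4) * ∫ z : ℍ, g z * W2 j z)) / a j := by
        ring
      rw [e, abs_div, abs_of_pos haj, div_le_iff₀ haj]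
      exact h1
  -- application to convolutions
  have relc : ∀ (κ : ℝ → ℝ) (f : ℍ → ℝ), RK κ → Inv Γ f → Inv Γ (conv κ f) ∧
      Inv Γ (lap (conv κ f)) ∧ ∃ C : ℝ, FB (conv κ f) C := by
    intro κ f hκ hf
    obtain ⟨-, -, -, -, -, -, -, h48⟩ := h4 ℝ
    have hl : lap (conv κ f) = conv (LL κ) f := by
      funext z
      exact (h3 ℝ κ f hκ hf.1).2.2.2 z
    obtain ⟨mf, hmf⟩ := (h9 Γ Fd f hΓ hF hf).1
    obtain ⟨C, -, hC⟩ := h5 κ hκ
    refine ⟨h48 Γ κ f hκ hf, ?_, ⟨_, hC f mf hf.1 hmf⟩⟩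
    rw [hl]
    exact h48 Γ (LL κ) f (h2.2.2.2.1 κ hκ) hf
  -- the functionals vanish
  have hvan : ∀ f : ℍ → ℝ, Inv Γ f → KLI_L W2 a f = 0 ∧ KLI_L W1 a f = 0 := by
    rcases hR0.lt_or_eq with hRpos | hRz
    · refine h10 Γ (KLI_L W2 a) (KLI_L W1 a) R hΓ bf2 bf1 hRpos ?_
      intro κ f hκ hf
      obtain ⟨i1, i2, C, hC⟩ := relc κ f hκ hf
      obtain ⟨-, r2, r3⟩ := rel _ C hC i1 i2
      constructor
      · linarith
      · linarith
    · intro f hf
      obtain ⟨mf, hmf⟩ := (h9 Γ Fd f hΓ hF hf).1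
      have hmf0 : 0 ≤ mf := (abs_nonneg _).trans (hmf UpperHalfPlane.I)
      rw [← hRz] at ld lR
      constructor
      · refine KLI_zero _ (fun j => mf * (D j / a j + |μ j - 1 / 4|)) _ (t2 f hf) ?_ fun j => ?_
        · have h1 := (ld.add lR.abs).const_mul mf
          rw [abs_zero, add_zero, mul_zero] at h1
          exact h1
        · have haj := apos j
          rw [abs_div, abs_of_pos haj]
          calc |∫ z : ℍ, f z * W2 j z| / a j ≤ (mf * ∫ z : ℍ, |W2 j z|) / a j :=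
                div_le_div_of_nonneg_right (KLI_abs mf hf.1 hmf (cW2 j) (sW2 j)) haj.le
            _ = mf * ((∫ z : ℍ, |W2 j z|) / a j) := by ring
            _ ≤ _ := mul_le_mul_of_nonneg_left (Bd2 j) hmf0
      · refine KLI_zero _ (fun j => mf * Real.sqrt (D j / a j)) _ (t1 f hf) ?_ fun j => ?_
        · have h0 : Tendsto (fun j => Real.sqrt (D j / a j)) (hyperfilter ℕ : Filter ℕ) (𝓝 0) := by
            have := (Real.continuous_sqrt.tendsto 0).comp ld
            rw [Real.sqrt_zero] at this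
            exact this
          have h1 := h0.const_mul mf
          rw [mul_zero] at h1
          exact h1
        · have haj := apos j
          rw [abs_div, abs_of_pos haj]
          calc |∫ z : ℍ, f z * W1 j z| / a j ≤ (mf * ∫ z : ℍ, |W1 j z|) / a j :=
                div_le_div_of_nonneg_right (KLI_abs mf hf.1 hmf (cW1 j) (sW1 j)) haj.le
            _ = mf * ((∫ z : ℍ, |W1 j z|) / a j) := by ring
            _ ≤ _ := mul_le_mul_of_nonneg_left (Bd1 j) hmf0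
  have hmea := h11 Γ Fd (KLI_L W0 a) hΓ hF bf0 (by
    intro κ f hκ hf
    obtain ⟨i1, i2, C, hC⟩ := relc κ f hκ hf
    obtain ⟨r1, -, -⟩ := rel _ C hC i1 i2
    obtain ⟨v1, v2⟩ := hvan _ i1
    rw [v1, v2] at r1
    linarith) h hh
  rw [hmean, mul_zero] at hmea
  obtain ⟨-, -, hv1, hv2, -⟩ := h8 Γ Fd hΓ hF
  have hv : 0 < (volume Fd).toReal := ENNReal.toReal_pos hv1.ne' hv2.ne
  have hz : KLI_L W0 a h = 0 := by
    rcases mul_eq_zero.1 hmea with h1 | h1
    · exact h1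
    · exact absurd h1 hv.ne'
  have hge : δ ≤ KLI_L W0 a h := by
    refine ge_of_tendsto (t0 h hh) (Filter.Eventually.of_forall fun j => ?_)
    have haj := apos j
    rw [le_div_iff₀ haj]
    have h1 := hbad' j
    have h2' : 0 ≤ ((j : ℝ) + 1) * F j := mul_nonneg (by positivity) (F0 j)
    rw [hW0]
    linarith
  linarith

theorem KLI (h1 : CA1_stmt) (h2 : LAK_stmt) (h3 : CVS_stmt) (h4 : CVB_stmt) (h5 : FRB_stmt)
    (h6 : IDN_stmt) (h7 : REL_stmt) (h8 : DOB_stmt) (h9 : BDD_stmt) (h10 : ABS_stmt)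
    (h11 : MEA_stmt) : KLI_stmt := by
  intro Γ Fd h hΓ hF hh hmean b δ hδ
  obtain ⟨m, hm⟩ := (h9 Γ Fd h hΓ hF hh).1
  by_contra hcon
  push Not at hcon
  have hch : ∀ j : ℕ, ∃ p : ℝ × (ℍ → ℝ), 0 ≤ p.1 ∧ p.1 ≤ b ∧ CD 2 p.2 ∧ HasCompactSupport p.2 ∧
      δ * (∫ z : ℍ, p.2 z ^ 2) + ((j : ℝ) + 1) * ∫ z : ℍ, (lap p.2 z - p.1 * p.2 z) ^ 2 <
        ∫ z : ℍ, h z * p.2 z ^ 2 := by
    intro j
    obtain ⟨μ, u, e1, e2, e3, e4, e5⟩ := hcon ((j : ℝ) + 1) (by positivity)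
    exact ⟨(μ, u), e1, e2, e3, e4, e5⟩
  choose p hp using hch
  exact KLI_core h2 h3 h4 h5 h6 h7 h8 h9 h10 h11 Γ Fd h hΓ hF hh hmean b δ m hδ hm
    (fun j => (p j).1) (fun j => (p j).2) (fun j => ⟨(hp j).1, (hp j).2.1⟩)
    (fun j => (hp j).2.2.1) (fun j => (hp j).2.2.2.1) (fun j => (hp j).2.2.2.2)

end Pool.Agent.QU
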